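import Pool.Agent.Helper61_LT.Stmts
import Pool.Agent.Helper61_LT.Tools

/-!
# LT, module TWO: the two sided estimate from the one sided one
-/

set_option autoImplicit false

namespace Pool.Agent.LT.H90

open Matrix

variable {C D : Type} [Fintype C] [Fintype D] [DecidableEq C] [DecidableEq D]

theorem Lcut_congr {α β : Type} [Fintype α] [Fintype β] [DecidableEq α] [DecidableEq β]
    (e : α ≃ β) (A : Matrix α α ℝ) (δ : ℝ) : Lcut (A.submatrix e.symm e.symm) δ = Lcut A δ := by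
  unfold Lcut
  have h : (A.submatrix e.symm e.symm).charpoly = A.charpoly := by
    have := Matrix.charpoly_reindex e A
    rwa [Matrix.reindex_apply] at this
  rw [h]

theorem hg_shift {α β : Type} {da : α → ℕ} {db : β → ℕ} {A : Matrix α β ℝ} {j : ℤ}
    (h : Hg da db A j) : Hg (fun a => da a + 1) (fun b => db b + 1) A j := by
  intro a b hab
  have := h a b hab
  push_cast
  linarith

theorem dat_shift {n : ℕ} {K : ℝ} {r : ℕ} {dc : C → ℕ} {dd : D → ℕ} {d : Matrix C C ℤ}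
    {e : Matrix D D ℤ} {f : Matrix D C ℤ} {h : Matrix C D ℤ} {θ : Matrix C C ℤ}
    (H : Dat n K r dc dd d e f h θ) :
    Dat (n + 1) K r (fun x => dc x + 1) (fun x => dd x + 1) d e f h θ where
  le := fun x => by
    have := H.le x
    show dc x + 1 ≤ n + 1
    omega
  gd := hg_shift H.gd
  ge := hg_shift H.ge
  gf := hg_shift H.gf
  gh := hg_shift H.gh
  gt := hg_shift H.gt
  dd0 := H.dd0
  ee0 := H.ee0
  bd := H.bd
  be := H.be
  bf := H.bf
  bh := H.bh
  bt := H.bt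
  fd := H.fd
  hd := H.hd
  ho := H.ho

theorem Lpp_shift (dc : C → ℕ) (d : Matrix C C ℝ) (p : ℕ) (δ : ℝ) :
    Lcut (Lpp (fun x => dc x + 1) d (p + 1)) δ = Lcut (Lpp dc d p) δ := by
  let E : {x // dc x = p} ≃ {x // dc x + 1 = p + 1} :=
    Equiv.subtypeEquivRight fun x => by omega
  rw [← Lcut_congr E (Lpp dc d p) δ]
  rfl

theorem tau_shift (dc : C → ℕ) (d : Matrix C C ℝ) (n : ℕ) (δ : ℝ)
    (h0 : ∑ p ∈ Finset.range (n + 1), (-1) ^ p * Lcut (Lpp dc d p) δ = 0) :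
    tau (fun x => dc x + 1) d (n + 1) δ = -tau dc d n δ := by
  unfold tau
  rw [Finset.sum_range_succ']
  have h1 : ∑ k ∈ Finset.range (n + 1), (-1 : ℝ) ^ (k + 1) * ((k + 1 : ℕ) : ℝ) *
      Lcut (Lpp (fun x => dc x + 1) d (k + 1)) δ =
      -(∑ p ∈ Finset.range (n + 1), (-1) ^ p * (p : ℝ) * Lcut (Lpp dc d p) δ) -
      ∑ p ∈ Finset.range (n + 1), (-1) ^ p * Lcut (Lpp dc d p) δ := by
    rw [← Finset.sum_neg_distrib, ← Finset.sum_sub_distrib]
    apply Finset.sum_congr rfl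
    intro k _
    rw [Lpp_shift]
    push_cast
    ring
  rw [h1, h0]
  simp

theorem two (one : OneStmt) (zer : ZerStmt) : TwoStmt := by
  intro n
  obtain ⟨c, hc⟩ := one n
  obtain ⟨c', hc'⟩ := one (n + 1)
  refine ⟨max c c', ?_⟩
  intro C D _ _ _ _ K δ r dc dd d e e0 e1 f h θ k0 k1 J0 I0 J1 I1 hK hδ hδ1 H hcard he0 he1
    hJ0 hI0 hJ1 hI1 hm0 hm1 hc0 hc1
  have hlog : 0 ≤ Real.log (K + 2) + Real.log (1 / δ) := by
    apply add_nonneg
    · exact Real.log_nonneg (by linarith)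
    · apply Real.log_nonneg
      rw [le_div_iff₀ hδ]
      linarith
  have hA := hc C D K δ r dc dd d e e0 e1 f h θ k0 k1 J0 I0 J1 I1 hK hδ hδ1 H hcard he0 he1
    hJ0 hI0 hJ1 hI1 hm0 hm1 hc0 hc1
  have hcard' : Fintype.card (Ev fun x => dc x + 1) = Fintype.card (Od fun x => dc x + 1) := by
    have E1 : (Ev fun x => dc x + 1) ≃ Od dc := Equiv.subtypeEquivRight fun x => by
      show (dc x + 1) % 2 = 0 ↔ dc x % 2 = 1
      omega
    have E2 : (Od fun x => dc x + 1) ≃ Ev dc := Equiv.subtypeEquivRight fun x => by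
      show (dc x + 1) % 2 = 1 ↔ dc x % 2 = 0
      omega
    rw [Fintype.card_congr E1, Fintype.card_congr E2, hcard]
  have hB := hc' C D K δ r (fun x => dc x + 1) (fun x => dd x + 1) d e e1 e0 f h θ k1 k0 J1 I1
    J0 I0 hK hδ hδ1 (dat_shift H) hcard' (by
      intro a b
      rw [he1, Matrix.sub_apply, he0]
      by_cases hb : dd b % 2 = 0
      · rw [if_pos hb, if_neg (by omega), sub_self]
      · rw [if_neg hb, if_pos (by omega), sub_zero]) (by rw [he1]; abel)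
    hJ1 hI1 hJ0 hI0 hm1 hm0 hc1 hc0
  have hz : ∑ p ∈ Finset.range (n + 1), (-1) ^ p * Lcut (Lpp dc (cst d) p) δ = 0 := by
    apply zer n C dc (cst d) δ H.le H.gd _ hδ hcard
    rw [← cst_mul, H.dd0, cst_zero]
  rw [tau_shift dc (cst d) n δ hz, neg_neg] at hB
  set z : ℝ := (zc (Lp (cst d)) δ : ℝ)
  set z0 : ℝ := (zc ((cst (e0.submatrix J0 I0))ᵀ * cst (e0.submatrix J0 I0)) δ : ℝ)
  set z1 : ℝ := (zc ((cst (e1.submatrix J1 I1))ᵀ * cst (e1.submatrix J1 I1)) δ : ℝ)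
  have hs : 0 ≤ (r : ℝ) + z + z0 + z1 := by positivity
  have hs' : (r : ℝ) + z + z1 + z0 = (r : ℝ) + z + z0 + z1 := by ring
  rw [hs'] at hB
  have hmul : ∀ a : ℝ, a ≤ ((max c c' : ℕ) : ℝ) →
      a * ((r : ℝ) + z + z0 + z1) * (Real.log (K + 2) + Real.log (1 / δ)) ≤
      ((max c c' : ℕ) : ℝ) * ((r : ℝ) + z + z0 + z1) *
        (Real.log (K + 2) + Real.log (1 / δ)) := by
    intro a ha
    exact mul_le_mul_of_nonneg_right (mul_le_mul_of_nonneg_right ha hs) hlog
  have h1 := hmul c (by exact_mod_cast le_max_left c c')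
  have h2 := hmul c' (by exact_mod_cast le_max_right c c')
  rw [abs_le]
  constructor <;> linarith

end Pool.Agent.LT.H90
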